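import Pool.Agent.Helper56.AP.Defs3
import Pool.Agent.Helper57.BG.Data
import Pool.Agent.Helper3.AP.BtSum

/-!
# Project A' (MP_8958e8): block US, tiny squarefree smooth variable
-/

open MeasureTheory Set Filter Topology
open Pool.Agent.Helper57.BG (TD)

set_option autoImplicit false

namespace Pool.Agent.Helper19.AP

open Pool.Agent.AP

/-! ## the inputs -/

def Stmt_PU_split : Prop := ∀ {J₁ J₂ Is : List (Finset ℕ)}, Is.Perm (J₁ ++ J₂) → (∀ I ∈ Is, ∀ p ∈ I, p.Prime) →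
    Is.Pairwise (fun I J => Disjoint I J) → ∀ (g : ℕ → ℝ),
    ∑ u ∈ PU Is, g u = ∑ u₁ ∈ PU J₁, ∑ u₂ ∈ PU J₂, g (u₁ * u₂)

def Stmt_PU_mem : Prop := ∀ᶠ T : ℝ in atTop, ∀ J : List (Finset ℕ), J.Sublist (IF T) → ∀ u ∈ PU J,
    Squarefree u ∧ u.primeFactors.card = J.length ∧ J.length ≤ 7 ∧ (∀ p : ℕ, p.Prime → p ∣ u → T ^ (1 / 100 : ℝ) < p) ∧
      (u : ℝ) ≤ T ^ (1 / 2 + 1 / 2000000 : ℝ) ∧ (J ≠ IF T → (u : ℝ) ≤ T ^ (491 / 1000 : ℝ))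

def Stmt_UU_bd : Prop := ∀ {ε : ℝ}, 0 < ε → ∀ᶠ T : ℝ in atTop, ∀ J : List (Finset ℕ), J.Sublist (IF T) → ∀ n : ℤ, n ≠ 0 → |(n : ℝ)| ≤ T ^ 2 →
    |UU J n| ≤ T ^ ε

def Stmt_TIIS : Prop := ∃ T0 : ℝ, 1 ≤ T0 ∧ ∀ T ≥ T0, ∀ (k : ℤ) (q1 : ℕ) (Q P X M : ℝ) (QQ W XX : Finset ℕ)
    (al b lam be : ℕ → ℂ), k ≠ 0 → |(k : ℝ)| ≤ T ^ (1 / 1000000 : ℝ) → 1 ≤ q1 → Int.gcd k q1 = 1 →
    1 ≤ Q → T ^ (3 / 50 : ℝ) / 2 ≤ P → P ≤ T ^ (3 / 50 + 1 / 1000000 : ℝ) →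
    T ^ (1 / 2000 : ℝ) / 2 ≤ X → X ≤ T ^ (131 / 10000 : ℝ) →
    (q1 : ℝ) ≤ T ^ (1 / 1000000 : ℝ) →
    T ^ (1 / 2 : ℝ) / 8 ≤ q1 * Q * P → q1 * Q * P ≤ T ^ (1 / 2 + 1 / 1000000 : ℝ) →
    T ^ (9 / 10 : ℝ) ≤ M * X → M * X ≤ T ^ (1 + 1 / 1000000 : ℝ) →
    (∀ q ∈ QQ, Squarefree q ∧ Q < q ∧ (q : ℝ) ≤ 2 * Q ∧ q.primeFactors.card ≤ 7 ∧
      ∀ r : ℕ, r.Prime → r ∣ q → T ^ (1 / 100 : ℝ) ≤ r) →
    (∀ w ∈ W, w.Prime ∧ P < w ∧ (w : ℝ) ≤ 2 * P) → (∀ w ∈ W, ∀ q ∈ QQ, Nat.Coprime w q) →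
    (∀ x ∈ XX, X < x ∧ (x : ℝ) ≤ 2 * X ∧ Nat.Coprime x q1) →
    (∀ x ∈ XX, ∀ q ∈ QQ, ∀ w ∈ W, Nat.Coprime x (q * w) ∨ x ∣ q * w) →
    (∀ n, ‖al n‖ ≤ 1) → (∀ n, ‖b n‖ ≤ 1) → (∀ n, ‖lam n‖ ≤ 1) → (∀ n, ‖be n‖ ≤ 1) →
    ∀ D0 R0 : ℝ, ‖(⟨k, q1, Q, P, X, M, D0, R0, 7, QQ, W, XX, b, lam, be⟩ : TD).S al‖ ≤
      T ^ (1 + 6 / 1000000 : ℝ) * X ^ (-(1 / 4) : ℝ) + T ^ (1 - 3 / 1000 : ℝ)

def Stmt_US : Prop := ∀ᶠ T : ℝ in atTop, ∀ J : List (Finset ℕ), J.Sublist (IF T) → J ≠ [] → ∀ (k : ℤ) (M L M₀ L₀ : ℕ) (α β : ℕ → ℝ), k ≠ 0 →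
    |(k : ℝ)| ≤ T ^ (1 / 1000000 : ℝ) → M₀ ≤ M → L₀ ≤ L → (M : ℝ) * L ≤ T ^ (1 + 1 / 1000000 : ℝ) → (∀ m, |α m| ≤ 1) → (∀ l, |β l| ≤ 1) →
    (∀ l, β l ≠ 0 → Squarefree l ∧ T ^ (1 / 400 : ℝ) < l ∧ (l : ℝ) ≤ T ^ (3 / 1000 : ℝ) ∧ ∀ p : ℕ, p.Prime → p ∣ l → (p : ℝ) ≤ T ^ (1 / 2000 : ℝ)) →
    |∑ m ∈ Finset.Ioc M₀ M, ∑ l ∈ Finset.Ioc L₀ L, α m * β l * UU J (m * l + k)| ≤ T ^ (1 - 6 / 10000 : ℝ)

/-! ## dyadic classes -/

private theorem cls1 {S : Finset ℕ} {f : ℕ → ℝ} {N : ℕ} {E : ℝ} (hN : ∀ n ∈ S, Nat.log 2 n < N)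
    (h : ∀ i : ℕ, |∑ n ∈ S.filter (fun n => Nat.log 2 n = i), f n| ≤ E) : |∑ n ∈ S, f n| ≤ N * E := by
  have h1 : ∑ n ∈ S, f n = ∑ i ∈ Finset.range N, ∑ n ∈ S.filter (fun n => Nat.log 2 n = i), f n := by
    rw [Finset.sum_fiberwise_of_maps_to (fun n hn => Finset.mem_range.2 (hN n hn))]
  rw [h1]
  refine (Finset.abs_sum_le_sum_abs _ _).trans ?_
  refine (Finset.sum_le_sum fun i _ => h i).trans ?_
  simp

private theorem cls2 {S S' : Finset ℕ} {f : ℕ → ℕ → ℝ} {N : ℕ} {E : ℝ} (hN : ∀ n ∈ S, Nat.log 2 n < N)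
    (hN' : ∀ n ∈ S', Nat.log 2 n < N)
    (h : ∀ i j : ℕ, |∑ n ∈ S.filter (fun n => Nat.log 2 n = i), ∑ n' ∈ S'.filter (fun n => Nat.log 2 n = j), f n n'| ≤ E) :
    |∑ n ∈ S, ∑ n' ∈ S', f n n'| ≤ (N : ℝ) ^ 2 * E := by
  have h1 : |∑ n ∈ S, ∑ n' ∈ S', f n n'| ≤ N * (N * E) := by
    refine cls1 hN fun i => ?_
    rw [Finset.sum_comm]
    refine cls1 hN' fun j => ?_
    rw [Finset.sum_comm]
    exact h i j
  linarith [h1, mul_assoc (N : ℝ) N E, sq (N : ℝ)]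

private theorem log_cls {n i : ℕ} (hn : n ≠ 0) (h : Nat.log 2 n = i) : (2 : ℝ) ^ i - 1 / 2 < n ∧ (n : ℝ) ≤ 2 * ((2 : ℝ) ^ i - 1 / 2) := by
  have h1 : 2 ^ i ≤ n := by rw [← h]; exact Nat.pow_log_le_self 2 hn
  have h2 : n < 2 ^ (i + 1) := by rw [← h]; exact Nat.lt_pow_succ_log_self (by norm_num) n
  have h1' : ((2 : ℝ) ^ i) ≤ n := by exact_mod_cast h1
  have h2' : (n : ℝ) + 1 ≤ 2 ^ (i + 1) := by exact_mod_cast h2
  rw [pow_succ] at h2'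
  constructor <;> linarith

private theorem cls_mem {i m : ℕ} (hm : m ≠ 0) (h : Nat.log 2 m = i) : m ∈ Finset.Ioc ⌊(2 : ℝ) ^ i - 1 / 2⌋₊ ⌊2 * ((2 : ℝ) ^ i - 1 / 2)⌋₊ := by
  obtain ⟨h1, h2⟩ := log_cls hm h
  have h0 : (0 : ℝ) ≤ (2 : ℝ) ^ i - 1 / 2 := by
    have : (1 : ℝ) ≤ 2 ^ i := one_le_pow₀ (by norm_num)
    linarith
  rw [Finset.mem_Ioc]
  exact ⟨(Nat.floor_lt h0).2 h1, Nat.le_floor h2⟩

/-! ## the intervals -/

private theorem IP_prime {e v T : ℝ} {p : ℕ} (h : p ∈ IP e v T) : p.Prime ∧ T ^ e < p ∧ (p : ℝ) ≤ T ^ (e + v) := by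
  unfold IP at h
  rw [Finset.mem_filter, Finset.mem_Icc] at h
  obtain ⟨⟨h1, h2⟩, h3, h4⟩ := h
  refine ⟨h3, h4, ?_⟩
  have h5 : 1 ≤ ⌊T ^ (e + v)⌋₊ := h1.trans h2
  have h6 : 0 ≤ T ^ (e + v) := by
    by_contra hc
    rw [Nat.floor_of_nonpos (by linarith)] at h5
    omega
  exact (Nat.cast_le.2 h2).trans (Nat.floor_le h6)

private theorem IP_disj {e e' v T : ℝ} (hT : 1 ≤ T) (h : e + v < e') : Disjoint (IP e v T) (IP e' v T) := by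
  rw [Finset.disjoint_left]
  intro p h1 h2
  have h3 := (IP_prime h1).2.2
  have h4 := (IP_prime h2).2.1
  have h5 : T ^ (e + v) ≤ T ^ e' := Real.rpow_le_rpow_of_exponent_le hT h.le
  linarith

/-- the six intervals without the one of `w` -/
private noncomputable def J1 (T : ℝ) : List (Finset ℕ) :=
  IL [1 / 100, 2 / 100, 4 / 100, 8 / 100, 13 / 100, 16 / 100] (1 / 100000000) T

private noncomputable def Iw (T : ℝ) : Finset ℕ := IP (6 / 100 + 1 / 1000000 / 4) (1 / 100000000) T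

private theorem IF_eq (T : ℝ) : IF T = [IP (1 / 100) (1 / 100000000) T, IP (2 / 100) (1 / 100000000) T, IP (4 / 100) (1 / 100000000) T,
    Iw T, IP (8 / 100) (1 / 100000000) T, IP (13 / 100) (1 / 100000000) T, IP (16 / 100) (1 / 100000000) T] := rfl

private theorem J1_eq (T : ℝ) : J1 T = [IP (1 / 100) (1 / 100000000) T, IP (2 / 100) (1 / 100000000) T, IP (4 / 100) (1 / 100000000) T,
    IP (8 / 100) (1 / 100000000) T, IP (13 / 100) (1 / 100000000) T, IP (16 / 100) (1 / 100000000) T] := rfl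

private theorem J1_sub (T : ℝ) : (J1 T).Sublist (IF T) := by
  rw [IF_eq, J1_eq]
  refine List.Sublist.cons_cons _ (List.Sublist.cons_cons _ (List.Sublist.cons_cons _ (List.Sublist.cons _ ?_)))
  exact List.Sublist.refl _

private theorem IF_perm (T : ℝ) : (IF T).Perm (J1 T ++ [Iw T]) := by
  rw [IF_eq, J1_eq]
  refine List.Perm.cons _ (List.Perm.cons _ (List.Perm.cons _ ?_))
  exact (List.perm_append_singleton _ _).symm

private theorem IF_prime (T : ℝ) : ∀ I ∈ IF T, ∀ p ∈ I, p.Prime := by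
  intro I hI p hp
  unfold IF IL at hI
  rw [List.mem_map] at hI
  obtain ⟨e, _, rfl⟩ := hI
  exact (IP_prime hp).1

private theorem IF_disj {T : ℝ} (hT : 1 ≤ T) : (IF T).Pairwise (fun I J => Disjoint I J) := by
  unfold IF IL
  rw [List.pairwise_map]
  have h : (esF (1 / 1000000)).Pairwise (fun x y => x + 1 / 100000000 < y) := by
    unfold esF
    simp only [List.pairwise_cons, List.mem_cons, List.not_mem_nil, or_false, forall_eq_or_imp, forall_eq, List.Pairwise.nil]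
    norm_num
  exact h.imp fun h => IP_disj hT h

private theorem PU_single (I : Finset ℕ) : PU [I] = I := by
  ext u
  simp [PU]

private theorem PU_low {v T : ℝ} (hT : 1 ≤ T) : ∀ es : List ℝ, ∀ u ∈ PU (IL es v T), T ^ es.sum ≤ u
  | [] => by
    intro u hu
    simp only [IL, List.map_nil, PU, Finset.mem_singleton] at hu
    subst hu
    simp
  | e :: es => by
    intro u hu
    simp only [IL, List.map_cons, PU, Finset.mem_image, Finset.mem_product, Prod.exists] at hu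
    obtain ⟨p, u', ⟨h1, h2⟩, rfl⟩ := hu
    have h3 := PU_low hT es u' h2
    have h4 := (IP_prime h1).2.1
    rw [List.sum_cons, Real.rpow_add (by linarith)]
    push_cast
    exact mul_le_mul h4.le h3 (Real.rpow_nonneg (by linarith) _) (Nat.cast_nonneg _)

private theorem split_all (hs : Stmt_PU_split) {T : ℝ} (hT : 1 ≤ T) {Pr : ℕ → Prop} (h : ∀ u ∈ PU (IF T), Pr u) :
    ∀ q ∈ PU (J1 T), ∀ w ∈ Iw T, Pr (q * w) := by
  classical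
  intro q hq w hw
  have h1 := hs (IF_perm T) (IF_prime T) (IF_disj hT) (fun u => if Pr u then (0 : ℝ) else 1)
  have h2 : ∑ u ∈ PU (IF T), (if Pr u then (0 : ℝ) else 1) = 0 := by
    refine Finset.sum_eq_zero fun u hu => ?_
    rw [if_pos (h u hu)]
  rw [h2, PU_single] at h1
  by_contra hc
  have h3 : (1 : ℝ) ≤ ∑ u₁ ∈ PU (J1 T), ∑ u₂ ∈ Iw T, (if Pr (u₁ * u₂) then (0 : ℝ) else 1) := by
    have h4 : ∑ u₂ ∈ Iw T, (if Pr (q * u₂) then (0 : ℝ) else 1) ≤ ∑ u₁ ∈ PU (J1 T), ∑ u₂ ∈ Iw T, (if Pr (u₁ * u₂) then (0 : ℝ) else 1) :=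
      Finset.single_le_sum (f := fun u₁ => ∑ u₂ ∈ Iw T, (if Pr (u₁ * u₂) then (0 : ℝ) else 1))
        (fun i _ => Finset.sum_nonneg fun j _ => by split_ifs <;> norm_num) hq
    have h5 : (if Pr (q * w) then (0 : ℝ) else 1) ≤ ∑ u₂ ∈ Iw T, (if Pr (q * u₂) then (0 : ℝ) else 1) :=
      Finset.single_le_sum (f := fun u₂ => (if Pr (q * u₂) then (0 : ℝ) else 1)) (fun j _ => by split_ifs <;> norm_num) hw
    rw [if_neg hc] at h5
    linarith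
  linarith


/-! ## arithmetic of the elements -/

private theorem phi_ratio {u : ℕ} (hs : Squarefree u) (hc : u.primeFactors.card ≤ 7) (hp : ∀ p : ℕ, p.Prime → p ∣ u → 100 ≤ p) :
    0 ≤ (u : ℝ) / Nat.totient u ∧ (u : ℝ) / Nat.totient u ≤ 2 := by
  have hu0 : u ≠ 0 := hs.ne_zero
  have htot : (Nat.totient u : ℝ) = u * ∏ p ∈ u.primeFactors, (1 - (p : ℝ)⁻¹) := by
    have := Nat.totient_eq_mul_prod_factors u
    have h2 : ((Nat.totient u : ℚ) : ℝ) = ((u * ∏ p ∈ u.primeFactors, (1 - (p : ℚ)⁻¹) : ℚ) : ℝ) := by rw [this]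
    push_cast at h2
    exact h2
  have h1 : (1 / 2 : ℝ) ≤ ∏ p ∈ u.primeFactors, (1 - (p : ℝ)⁻¹) := by
    have h2 : ∏ _p ∈ u.primeFactors, (99 / 100 : ℝ) ≤ ∏ p ∈ u.primeFactors, (1 - (p : ℝ)⁻¹) := by
      refine Finset.prod_le_prod (fun _ _ => by norm_num) fun p hp' => ?_
      have h3 := hp p (Nat.prime_of_mem_primeFactors hp') (Nat.dvd_of_mem_primeFactors hp')
      have h4 : (100 : ℝ) ≤ p := by exact_mod_cast h3
      have h5 : (p : ℝ)⁻¹ ≤ 1 / 100 := by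
        rw [inv_eq_one_div]
        exact one_div_le_one_div_of_le (by norm_num) h4
      linarith
    rw [Finset.prod_const] at h2
    have h6 : (99 / 100 : ℝ) ^ 7 ≤ (99 / 100 : ℝ) ^ u.primeFactors.card := pow_le_pow_of_le_one (by norm_num) (by norm_num) hc
    have h7 : (1 / 2 : ℝ) ≤ (99 / 100 : ℝ) ^ 7 := by norm_num
    linarith
  have hu : (0 : ℝ) < u := by exact_mod_cast Nat.pos_of_ne_zero hu0
  have ht : (0 : ℝ) < Nat.totient u := by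
    exact_mod_cast Nat.totient_pos.2 (Nat.pos_of_ne_zero hu0)
  refine ⟨by positivity, ?_⟩
  rw [div_le_iff₀ ht, htot]
  nlinarith

/-! ## part A: J ≠ IF T, by the bilinear large sieve -/

private theorem dvd_iff {P : ℕ} (m l : ℕ) (k : ℤ) : ((-k : ℤ) : ZMod P) = (m : ZMod P) * l ↔ (P : ℤ) ∣ (m : ℤ) * l + k := by
  rw [← ZMod.intCast_zmod_eq_zero_iff_dvd]
  push_cast
  constructor
  · intro h; rw [← h]; ring
  · intro h; linear_combination -h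

private theorem partA_alg {J : List (Finset ℕ)} {k : ℤ} {M L1 M₀ L₀ Z X : ℕ} {α β : ℕ → ℝ} (hZ : 1 ≤ Z) (hX : 1 ≤ X)
    (hJ : ∀ u ∈ PU J, Squarefree u ∧ u.primeFactors.card ≤ 7 ∧ (∀ p : ℕ, p.Prime → p ∣ u → 100 ≤ p ∧ Z ≤ p ∧ k.natAbs < p) ∧ u ≤ X)
    (hk : k ≠ 0) (hα : ∀ m, |α m| ≤ 1) (hβ : ∀ l, |β l| ≤ 1) :
    |∑ m ∈ Finset.Ioc M₀ (M₀ + M), ∑ l ∈ Finset.Ioc L₀ (L₀ + L1), α m * β l * UU J (m * l + k)| ≤
      2 * (40 * (1 + Real.log X) ^ 3 * (X * (Real.sqrt M * Real.sqrt L1) + M * Real.sqrt L1 + L1 * Real.sqrt M + M * L1 / Z)) := by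
  have hS : ∀ P ∈ PU J, P ≠ 0 ∧ (1 : ℕ).Coprime P ∧ 1 * P ≤ X ∧ IsCoprime (-k) ((1 * P : ℕ) : ℤ) ∧ ∀ p : ℕ, p.Prime → p ∣ P → Z ≤ p := by
    intro P hP
    obtain ⟨h1, h2, h3, h4⟩ := hJ P hP
    refine ⟨h1.ne_zero, Nat.coprime_one_left P, by omega, ?_, fun p hp hd => (h3 p hp hd).2.1⟩
    rw [one_mul, IsCoprime.neg_left_iff, Int.isCoprime_iff_gcd_eq_one]
    rw [Int.gcd_eq_natAbs, Int.natAbs_natCast]
    by_contra hc
    obtain ⟨p, hp, hpk, hpP⟩ := Nat.Prime.not_coprime_iff_dvd.1 hc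
    have h5 := (h3 p hp hpP).2.2
    have h6 : p ≤ k.natAbs := Nat.le_of_dvd (Int.natAbs_pos.2 hk) hpk
    omega
  have hB := Pool.Agent.Helper3.AP.bterms (d := 1) (Z := Z) (X := X) (M0 := M₀) (M := M) (L0 := L₀) (L := L1) one_ne_zero hZ hX (k := -k) (PU J) hS
    (a := fun m => (α m : ℂ)) (b := fun l => (β l : ℂ)) (fun n => by simpa using hα n) (fun n => by simpa using hβ n)
  have hE : ∑ m ∈ Finset.Ioc M₀ (M₀ + M), ∑ l ∈ Finset.Ioc L₀ (L₀ + L1), α m * β l * UU J (m * l + k) =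
      ∑ u ∈ PU J, (u : ℝ) / Nat.totient u * (∑ m ∈ Finset.Ioc M₀ (M₀ + M), ∑ l ∈ Finset.Ioc L₀ (L₀ + L1),
        α m * β l * (if (u : ℤ) ∣ (m : ℤ) * l + k then (1 : ℝ) else 0) -
      (u : ℝ)⁻¹ * ∑ m ∈ Finset.Ioc M₀ (M₀ + M), ∑ l ∈ Finset.Ioc L₀ (L₀ + L1), α m * β l) := by
    calc _ = ∑ m ∈ Finset.Ioc M₀ (M₀ + M), ∑ l ∈ Finset.Ioc L₀ (L₀ + L1), ∑ u ∈ PU J,
          α m * β l * ((u : ℝ) / Nat.totient u * ((if (u : ℤ) ∣ (m : ℤ) * l + k then (1 : ℝ) else 0) - 1 / u)) := by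
          refine Finset.sum_congr rfl fun m _ => Finset.sum_congr rfl fun l _ => ?_
          unfold UU
          rw [Finset.mul_sum]
      _ = ∑ u ∈ PU J, ∑ m ∈ Finset.Ioc M₀ (M₀ + M), ∑ l ∈ Finset.Ioc L₀ (L₀ + L1),
          α m * β l * ((u : ℝ) / Nat.totient u * ((if (u : ℤ) ∣ (m : ℤ) * l + k then (1 : ℝ) else 0) - 1 / u)) := by
          rw [Finset.sum_comm (s := PU J)]
          exact Finset.sum_congr rfl fun m _ => Finset.sum_comm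
      _ = _ := by
          refine Finset.sum_congr rfl fun u _ => ?_
          rw [mul_sub, Finset.mul_sum, ← mul_assoc, Finset.mul_sum, ← Finset.sum_sub_distrib]
          refine Finset.sum_congr rfl fun m _ => ?_
          rw [Finset.mul_sum, Finset.mul_sum, ← Finset.sum_sub_distrib]
          refine Finset.sum_congr rfl fun l _ => ?_
          ring
  rw [hE]
  refine (Finset.abs_sum_le_sum_abs _ _).trans ?_
  refine le_trans ?_ (mul_le_mul_of_nonneg_left hB (by norm_num : (0 : ℝ) ≤ 2))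
  rw [Finset.mul_sum]
  refine Finset.sum_le_sum fun u hu => ?_
  obtain ⟨h1, h2, h3, h4⟩ := hJ u hu
  obtain ⟨h5, h6⟩ := phi_ratio h1 h2 fun p hp hd => (h3 p hp hd).1
  rw [abs_mul, abs_of_nonneg h5]
  refine mul_le_mul h6 (le_of_eq ?_) (abs_nonneg _) (by norm_num)
  rw [← Real.norm_eq_abs, ← Complex.norm_real]
  congr 1
  simp only [one_mul, dvd_iff, Nat.cast_one, one_dvd, if_true, mul_one]
  push_cast
  simp only [apply_ite Complex.ofReal, Complex.ofReal_one, Complex.ofReal_zero]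

private theorem partA {T : ℝ} (hT : 1 < T) (h100 : 100 ≤ T ^ (1 / 100 : ℝ)) (hlog : 320 * (1 + Real.log T) ^ 3 ≤ T ^ (4 / 10000 : ℝ))
    {J : List (Finset ℕ)} (hJ : ∀ u ∈ PU J,
      Squarefree u ∧ u.primeFactors.card ≤ 7 ∧ (∀ p : ℕ, p.Prime → p ∣ u → T ^ (1 / 100 : ℝ) < p) ∧ (u : ℝ) ≤ T ^ (491 / 1000 : ℝ))
    {k : ℤ} {M L M₀ L₀ : ℕ} {α β : ℕ → ℝ} (hk : k ≠ 0)
    (hkT : |(k : ℝ)| ≤ T ^ (1 / 1000000 : ℝ)) (hM : M₀ ≤ M) (hL : L₀ ≤ L) (hML : (M : ℝ) * L ≤ T ^ (1 + 1 / 1000000 : ℝ))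
    (hα : ∀ m, |α m| ≤ 1) (hβ : ∀ l, |β l| ≤ 1)
    (hβ' : ∀ l, β l ≠ 0 → T ^ (1 / 400 : ℝ) < l ∧ (l : ℝ) ≤ T ^ (3 / 1000 : ℝ)) :
    |∑ m ∈ Finset.Ioc M₀ M, ∑ l ∈ Finset.Ioc L₀ L, α m * β l * UU J (m * l + k)| ≤ T ^ (1 - 6 / 10000 : ℝ) := by
  have hT0 : 0 < T := by linarith
  have hT1 : 1 ≤ T := hT.le
  by_cases hex : ∃ l ∈ Finset.Ioc L₀ L, β l ≠ 0
  swap
  · push Not at hex
    have : ∑ m ∈ Finset.Ioc M₀ M, ∑ l ∈ Finset.Ioc L₀ L, α m * β l * UU J (m * l + k) = 0 := by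
      refine Finset.sum_eq_zero fun m _ => Finset.sum_eq_zero fun l hl => ?_
      rw [hex l hl]; ring
    rw [this, abs_zero]
    positivity
  obtain ⟨l0, hl0, hl0'⟩ := hex
  have hL1 : T ^ (1 / 400 : ℝ) ≤ L := by
    have h1 := (hβ' l0 hl0').1
    have h2 : (l0 : ℝ) ≤ L := by exact_mod_cast (Finset.mem_Ioc.1 hl0).2
    linarith
  have hL2 : (1 : ℝ) ≤ L := le_trans (Real.one_le_rpow hT1 (by norm_num)) hL1
  set L1 : ℕ := min L ⌊T ^ (3 / 1000 : ℝ)⌋₊ - L₀ with hL1def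
  have hsum : ∑ m ∈ Finset.Ioc M₀ M, ∑ l ∈ Finset.Ioc L₀ L, α m * β l * UU J (m * l + k) =
      ∑ m ∈ Finset.Ioc M₀ (M₀ + (M - M₀)), ∑ l ∈ Finset.Ioc L₀ (L₀ + L1), α m * β l * UU J (m * l + k) := by
    rw [Nat.add_sub_cancel' hM]
    refine Finset.sum_congr rfl fun m _ => ?_
    symm
    refine Finset.sum_subset ?_ ?_
    · intro l hl
      rw [Finset.mem_Ioc] at hl ⊢
      have := min_le_left L ⌊T ^ (3 / 1000 : ℝ)⌋₊
      omega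
    · intro l hl hl'
      by_cases hb : β l = 0
      · rw [hb]; ring
      · exfalso
        apply hl'
        have h1 : l ≤ ⌊T ^ (3 / 1000 : ℝ)⌋₊ := Nat.le_floor (hβ' l hb).2
        rw [Finset.mem_Ioc] at hl ⊢
        have h2 : l ≤ min L ⌊T ^ (3 / 1000 : ℝ)⌋₊ := le_min hl.2 h1
        omega
  rw [hsum]
  have hZ : 1 ≤ ⌈T ^ (1 / 100 : ℝ)⌉₊ := Nat.one_le_ceil_iff.2 (by positivity)
  have hX : 1 ≤ ⌊T ^ (491 / 1000 : ℝ)⌋₊ := (Nat.one_le_floor_iff _).2 (Real.one_le_rpow hT1 (by norm_num))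
  have hkk : (k.natAbs : ℝ) < T ^ (1 / 100 : ℝ) := by
    have h1 : (k.natAbs : ℝ) = |(k : ℝ)| := by
      rw [Nat.cast_natAbs]; push_cast; rfl
    rw [h1]
    exact lt_of_le_of_lt hkT (Real.rpow_lt_rpow_of_exponent_lt hT (by norm_num))
  refine (partA_alg (M := M - M₀) (L1 := L1) hZ hX (fun u hu => ?_) hk hα hβ).trans ?_
  · obtain ⟨h1, h2, h3, h4⟩ := hJ u hu
    refine ⟨h1, h2, fun p hp hd => ?_, Nat.le_floor h4⟩
    have h5 := h3 p hp hd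
    refine ⟨?_, Nat.ceil_le.2 h5.le, ?_⟩
    · have h6 : (100 : ℝ) ≤ p := by linarith
      exact_mod_cast h6
    · have h6 : (k.natAbs : ℝ) < p := by linarith
      exact_mod_cast h6
  -- numbers
  set X : ℝ := (⌊T ^ (491 / 1000 : ℝ)⌋₊ : ℝ) with hXdef
  set Z : ℝ := (⌈T ^ (1 / 100 : ℝ)⌉₊ : ℝ) with hZdef
  have hXle : X ≤ T ^ (491 / 1000 : ℝ) := Nat.floor_le (by positivity)
  have hX1 : 1 ≤ X := by rw [hXdef]; exact_mod_cast hX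
  have hZle : T ^ (1 / 100 : ℝ) ≤ Z := Nat.le_ceil _
  have hmm : (((M - M₀ : ℕ)) : ℝ) ≤ M := by exact_mod_cast Nat.sub_le _ _
  have hll : (L1 : ℝ) ≤ L := by
    have : L1 ≤ L := (Nat.sub_le _ _).trans (min_le_left _ _)
    exact_mod_cast this
  have hll' : (L1 : ℝ) ≤ T ^ (3 / 1000 : ℝ) := by
    have : L1 ≤ ⌊T ^ (3 / 1000 : ℝ)⌋₊ := (Nat.sub_le _ _).trans (min_le_right _ _)
    exact (Nat.cast_le.2 this).trans (Nat.floor_le (by positivity))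
  set mm : ℝ := ((M - M₀ : ℕ) : ℝ) with hmmdef
  set ll : ℝ := (L1 : ℝ) with hlldef
  have hmm0 : 0 ≤ mm := Nat.cast_nonneg _
  have hll0 : 0 ≤ ll := Nat.cast_nonneg _
  have hM0 : (0 : ℝ) ≤ M := Nat.cast_nonneg _
  have hML' : mm * ll ≤ T ^ (1 + 1 / 1000000 : ℝ) := (mul_le_mul hmm hll hll0 hM0).trans hML
  have hMb : mm ≤ T ^ (1 + 1 / 1000000 - 1 / 400 : ℝ) := by
    rw [Real.rpow_sub hT0, le_div_iff₀ (by positivity)]
    calc mm * T ^ (1 / 400 : ℝ) ≤ M * L := mul_le_mul hmm hL1 (by positivity) hM0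
      _ ≤ _ := hML
  have hsq : ∀ {x e : ℝ}, x ≤ T ^ e → Real.sqrt x ≤ T ^ (e / 2) := by
    intro x e hx
    rw [Real.sqrt_le_left (by positivity), ← Real.rpow_natCast, ← Real.rpow_mul hT0.le]
    refine hx.trans (le_of_eq ?_)
    congr 1
    push_cast
    ring
  have e1 : Real.sqrt mm * Real.sqrt ll ≤ T ^ ((1 + 1 / 1000000) / 2 : ℝ) := by
    rw [← Real.sqrt_mul hmm0]
    exact hsq hML'
  have e2 : Real.sqrt mm ≤ T ^ ((1 + 1 / 1000000 - 1 / 400) / 2 : ℝ) := hsq hMb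
  have key : ∀ {e : ℝ}, e ≤ 999 / 1000 → T ^ e ≤ T ^ (999 / 1000 : ℝ) := fun he => Real.rpow_le_rpow_of_exponent_le hT1 he
  have t1 : X * (Real.sqrt mm * Real.sqrt ll) ≤ T ^ (999 / 1000 : ℝ) := by
    refine (mul_le_mul hXle e1 (by positivity) (by positivity)).trans ?_
    rw [← Real.rpow_add hT0]
    exact key (by norm_num)
  have t2 : mm * Real.sqrt ll ≤ T ^ (999 / 1000 : ℝ) := by
    have h1 : mm * Real.sqrt ll = Real.sqrt mm * (Real.sqrt mm * Real.sqrt ll) := by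
      rw [← mul_assoc, Real.mul_self_sqrt hmm0]
    rw [h1]
    refine (mul_le_mul e2 e1 (by positivity) (by positivity)).trans ?_
    rw [← Real.rpow_add hT0]
    exact key (by norm_num)
  have t3 : ll * Real.sqrt mm ≤ T ^ (999 / 1000 : ℝ) := by
    refine (mul_le_mul hll' e2 (by positivity) (by positivity)).trans ?_
    rw [← Real.rpow_add hT0]
    exact key (by norm_num)
  have t4 : mm * ll / Z ≤ T ^ (999 / 1000 : ℝ) := by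
    have h1 : mm * ll / Z ≤ T ^ (1 + 1 / 1000000 : ℝ) / T ^ (1 / 100 : ℝ) :=
      div_le_div₀ (by positivity) hML' (by positivity) hZle
    refine h1.trans ?_
    rw [← Real.rpow_sub hT0]
    exact key (by norm_num)
  have hlogX : Real.log X ≤ Real.log T := by
    refine Real.log_le_log (by linarith) (hXle.trans ?_)
    calc T ^ (491 / 1000 : ℝ) ≤ T ^ (1 : ℝ) := Real.rpow_le_rpow_of_exponent_le hT1 (by norm_num)
      _ = T := Real.rpow_one T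
  have hlogX0 : 0 ≤ Real.log X := Real.log_nonneg hX1
  have hc : (1 + Real.log X) ^ 3 ≤ (1 + Real.log T) ^ 3 := pow_le_pow_left₀ (by linarith) (by linarith) 3
  have hc0 : 0 ≤ (1 + Real.log X) ^ 3 := by positivity
  have hlogT0 : 0 ≤ Real.log T := Real.log_nonneg hT1
  calc 2 * (40 * (1 + Real.log X) ^ 3 * (X * (Real.sqrt mm * Real.sqrt ll) + mm * Real.sqrt ll + ll * Real.sqrt mm + mm * ll / Z))
      ≤ 2 * (40 * (1 + Real.log T) ^ 3 * (4 * T ^ (999 / 1000 : ℝ))) := by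
        have : X * (Real.sqrt mm * Real.sqrt ll) + mm * Real.sqrt ll + ll * Real.sqrt mm + mm * ll / Z ≤ 4 * T ^ (999 / 1000 : ℝ) := by
          linarith
        gcongr
    _ = 320 * (1 + Real.log T) ^ 3 * T ^ (999 / 1000 : ℝ) := by ring
    _ ≤ T ^ (4 / 10000 : ℝ) * T ^ (999 / 1000 : ℝ) := by gcongr
    _ = T ^ (1 - 6 / 10000 : ℝ) := by
        rw [← Real.rpow_add hT0]
        norm_num

/-! ## part B: J = IF T, by TIIS -/

/-- the term of `u` -/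
private noncomputable def gt (n : ℤ) (u : ℕ) : ℝ := (u : ℝ) / Nat.totient u * ((if (u : ℤ) ∣ n then (1 : ℝ) else 0) - 1 / u)

/-- `u / (2 φ(u))` -/
private noncomputable def hf (u : ℕ) : ℝ := (u : ℝ) / Nat.totient u / 2

private theorem gt_mul {q w : ℕ} (h : Nat.Coprime q w) (n : ℤ) : gt n (q * w) =
    4 * (hf q * hf w * ((if ((q * w : ℕ) : ℤ) ∣ n then (1 : ℝ) else 0) - 1 / ((q * w : ℕ) : ℝ))) := by
  unfold gt hf
  rw [Nat.totient_mul h]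
  push_cast
  ring

private theorem boxS {k : ℤ} {Sm Sl A Wf : Finset ℕ} {α β : ℕ → ℝ} {Q P X Mx : ℝ}
    (hSm : Sm ⊆ Finset.Ioc ⌊Mx⌋₊ ⌊2 * Mx⌋₊)
    (hcop : ∀ q ∈ A, ∀ w ∈ Wf, Nat.Coprime q w) (hcx : ∀ x ∈ Sl, ∀ q ∈ A, ∀ w ∈ Wf, Nat.Coprime x (q * w)) (D0 R0 : ℝ) :
    ((∑ q ∈ A, ∑ w ∈ Wf, ∑ m ∈ Sm, ∑ l ∈ Sl, α m * β l * gt ((m : ℤ) * l + k) (q * w) : ℝ) : ℂ) =
      4 * (⟨-k, 1, Q, P, X, Mx, D0, R0, 7, A, Wf, Sl, fun q => ((hf q : ℝ) : ℂ), fun w => ((hf w : ℝ) : ℂ), fun l => ((β l : ℝ) : ℂ)⟩ : TD).S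
        (fun m => if m ∈ Sm then ((α m : ℝ) : ℂ) else 0) := by
  classical
  have hI : (⟨-k, 1, Q, P, X, Mx, D0, R0, 7, A, Wf, Sl, fun q => ((hf q : ℝ) : ℂ), fun w => ((hf w : ℝ) : ℂ), fun l => ((β l : ℝ) : ℂ)⟩ : TD).I =
      A ×ˢ Wf ×ˢ Sl := by
    unfold TD.I
    refine Finset.filter_true_of_mem ?_
    rintro ⟨q, w, x⟩ h
    simp only [Finset.mem_product] at h
    exact hcx x h.2.2 q h.1 w h.2.1
  unfold TD.S TD.Ms TD.cc
  rw [hI]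
  simp only [Finset.sum_product, one_mul, Nat.cast_one, one_dvd, if_true, mul_one, sub_neg_eq_add]
  have h1 : ∀ F : ℕ → ℂ, ∑ m ∈ Finset.Ioc ⌊Mx⌋₊ ⌊2 * Mx⌋₊, (if m ∈ Sm then ((α m : ℝ) : ℂ) else 0) * F m = ∑ m ∈ Sm, (α m : ℂ) * F m := by
    intro F
    rw [← Finset.sum_subset hSm (fun m _ hm => by rw [if_neg hm, zero_mul])]
    exact Finset.sum_congr rfl fun m hm => by rw [if_pos hm]
  rw [h1]
  have h2 : ∑ q ∈ A, ∑ w ∈ Wf, ∑ m ∈ Sm, ∑ l ∈ Sl, α m * β l * gt ((m : ℤ) * l + k) (q * w) =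
      ∑ m ∈ Sm, ∑ q ∈ A, ∑ w ∈ Wf, ∑ l ∈ Sl, α m * β l * gt ((m : ℤ) * l + k) (q * w) := by
    rw [Finset.sum_comm (s := Sm)]
    exact Finset.sum_congr rfl fun q _ => Finset.sum_comm
  rw [h2]
  push_cast
  rw [Finset.mul_sum]
  refine Finset.sum_congr rfl fun m _ => ?_
  rw [Finset.mul_sum, Finset.mul_sum]
  refine Finset.sum_congr rfl fun q hq => ?_
  rw [Finset.mul_sum, Finset.mul_sum]
  refine Finset.sum_congr rfl fun w hw => ?_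
  rw [Finset.mul_sum, Finset.mul_sum]
  refine Finset.sum_congr rfl fun l _ => ?_
  rw [gt_mul (hcop q hq w hw)]
  push_cast
  simp only [apply_ite Complex.ofReal, Complex.ofReal_one, Complex.ofReal_zero]
  ring

private theorem hf_le {u : ℕ} (hs : Squarefree u) (hc : u.primeFactors.card ≤ 7) (hp : ∀ p : ℕ, p.Prime → p ∣ u → 100 ≤ p) :
    |hf u| ≤ 1 := by
  obtain ⟨h1, h2⟩ := phi_ratio hs hc hp
  unfold hf
  rw [abs_of_nonneg (by linarith)]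
  linarith

/-- the cut coefficient: one outside of the set the bound is needed -/
private noncomputable def cut (S : Finset ℕ) (f : ℕ → ℝ) (n : ℕ) : ℂ := if n ∈ S then ((f n : ℝ) : ℂ) else 0

private theorem cut_le {S : Finset ℕ} {f : ℕ → ℝ} (h : ∀ n ∈ S, |f n| ≤ 1) (n : ℕ) : ‖cut S f n‖ ≤ 1 := by
  unfold cut
  split_ifs with h1
  · simpa using h n h1
  · simp

private theorem S_congr {k : ℤ} {Sl A Wf : Finset ℕ} {β : ℕ → ℝ} {Q P X Mx D0 R0 : ℝ} (al : ℕ → ℂ) :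
    (⟨-k, 1, Q, P, X, Mx, D0, R0, 7, A, Wf, Sl, fun q => ((hf q : ℝ) : ℂ), fun w => ((hf w : ℝ) : ℂ), fun l => ((β l : ℝ) : ℂ)⟩ : TD).S al =
    (⟨-k, 1, Q, P, X, Mx, D0, R0, 7, A, Wf, Sl, cut A hf, cut Wf hf, fun l => ((β l : ℝ) : ℂ)⟩ : TD).S al := by
  unfold TD.S TD.Ms
  refine Finset.sum_congr rfl fun m _ => ?_
  congr 1
  refine Finset.sum_congr rfl fun i hi => ?_
  have hi' : i.1 ∈ A ∧ i.2.1 ∈ Wf := by
    unfold TD.I at hi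
    simp only [Finset.mem_filter, Finset.mem_product] at hi
    exact ⟨hi.1.1, hi.1.2.1⟩
  congr 1
  unfold TD.cc cut
  simp only [hi'.1, hi'.2, if_true]

/-- the bound of one box -/
private noncomputable def E4 (T : ℝ) : ℝ := 4 * (2 * T ^ (1 - 619 / 1000000 : ℝ) + T ^ (1 - 3 / 1000 : ℝ))

private theorem E4_nonneg {T : ℝ} (hT : 0 < T) : 0 ≤ E4 T := by unfold E4; positivity

/-- the body of TIIS at `T` -/
private def BodyS (T : ℝ) : Prop := ∀ (k : ℤ) (q1 : ℕ) (Q P X M : ℝ) (QQ W XX : Finset ℕ)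
    (al b lam be : ℕ → ℂ), k ≠ 0 → |(k : ℝ)| ≤ T ^ (1 / 1000000 : ℝ) → 1 ≤ q1 → Int.gcd k q1 = 1 →
    1 ≤ Q → T ^ (3 / 50 : ℝ) / 2 ≤ P → P ≤ T ^ (3 / 50 + 1 / 1000000 : ℝ) →
    T ^ (1 / 2000 : ℝ) / 2 ≤ X → X ≤ T ^ (131 / 10000 : ℝ) →
    (q1 : ℝ) ≤ T ^ (1 / 1000000 : ℝ) →
    T ^ (1 / 2 : ℝ) / 8 ≤ q1 * Q * P → q1 * Q * P ≤ T ^ (1 / 2 + 1 / 1000000 : ℝ) →
    T ^ (9 / 10 : ℝ) ≤ M * X → M * X ≤ T ^ (1 + 1 / 1000000 : ℝ) →
    (∀ q ∈ QQ, Squarefree q ∧ Q < q ∧ (q : ℝ) ≤ 2 * Q ∧ q.primeFactors.card ≤ 7 ∧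
      ∀ r : ℕ, r.Prime → r ∣ q → T ^ (1 / 100 : ℝ) ≤ r) →
    (∀ w ∈ W, w.Prime ∧ P < w ∧ (w : ℝ) ≤ 2 * P) → (∀ w ∈ W, ∀ q ∈ QQ, Nat.Coprime w q) →
    (∀ x ∈ XX, X < x ∧ (x : ℝ) ≤ 2 * X ∧ Nat.Coprime x q1) →
    (∀ x ∈ XX, ∀ q ∈ QQ, ∀ w ∈ W, Nat.Coprime x (q * w) ∨ x ∣ q * w) →
    (∀ n, ‖al n‖ ≤ 1) → (∀ n, ‖b n‖ ≤ 1) → (∀ n, ‖lam n‖ ≤ 1) → (∀ n, ‖be n‖ ≤ 1) →
    ∀ D0 R0 : ℝ, ‖(⟨k, q1, Q, P, X, M, D0, R0, 7, QQ, W, XX, b, lam, be⟩ : TD).S al‖ ≤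
      T ^ (1 + 6 / 1000000 : ℝ) * X ^ (-(1 / 4) : ℝ) + T ^ (1 - 3 / 1000 : ℝ)

/-- the body of `PU_mem` at `T` -/
private def BodyM (T : ℝ) : Prop := ∀ J : List (Finset ℕ), J.Sublist (IF T) → ∀ u ∈ PU J,
    Squarefree u ∧ u.primeFactors.card = J.length ∧ J.length ≤ 7 ∧ (∀ p : ℕ, p.Prime → p ∣ u → T ^ (1 / 100 : ℝ) < p) ∧
      (u : ℝ) ≤ T ^ (1 / 2 + 1 / 2000000 : ℝ) ∧ (J ≠ IF T → (u : ℝ) ≤ T ^ (491 / 1000 : ℝ))

private theorem boxB {T : ℝ} (hT : 1 < T) (h100 : 100 ≤ T ^ (1 / 100 : ℝ)) (hS : BodyS T) (hM : BodyM T) (hsp : Stmt_PU_split)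
    {k : ℤ} (hk : k ≠ 0) (hkT : |(k : ℝ)| ≤ T ^ (1 / 1000000 : ℝ)) {i j a b : ℕ} {Sm Sl : Finset ℕ} {α β : ℕ → ℝ}
    (hα : ∀ m, |α m| ≤ 1) (hβ : ∀ l, |β l| ≤ 1) (hSm : ∀ m ∈ Sm, m ≠ 0)
    (hSl : ∀ l ∈ Sl, Squarefree l ∧ T ^ (1 / 400 : ℝ) < l ∧ (l : ℝ) ≤ T ^ (3 / 1000 : ℝ) ∧ ∀ p : ℕ, p.Prime → p ∣ l → (p : ℝ) ≤ T ^ (1 / 2000 : ℝ))
    (hML : ∀ m ∈ Sm, ∀ l ∈ Sl, (m : ℝ) * l ≤ T ^ (1 + 1 / 1000000 : ℝ))
    (hbig : T ^ (9 / 10 : ℝ) ≤ ((2 : ℝ) ^ i - 1 / 2) * ((2 : ℝ) ^ j - 1 / 2)) :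
    |∑ q ∈ (PU (J1 T)).filter (fun n => Nat.log 2 n = a), ∑ w ∈ (Iw T).filter (fun n => Nat.log 2 n = b),
      ∑ m ∈ Sm.filter (fun n => Nat.log 2 n = i), ∑ l ∈ Sl.filter (fun n => Nat.log 2 n = j),
        α m * β l * gt ((m : ℤ) * l + k) (q * w)| ≤ E4 T := by
  have hT0 : 0 < T := by linarith
  have hT1 : 1 ≤ T := hT.le
  have hmono : ∀ {x y : ℝ}, x ≤ y → T ^ x ≤ T ^ y := fun h => Real.rpow_le_rpow_of_exponent_le hT1 h
  set A := (PU (J1 T)).filter (fun n => Nat.log 2 n = a) with hA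
  set W := (Iw T).filter (fun n => Nat.log 2 n = b) with hW
  set S1 := Sm.filter (fun n => Nat.log 2 n = i) with hS1
  set S2 := Sl.filter (fun n => Nat.log 2 n = j) with hS2
  -- empty classes
  by_cases hA0 : A = ∅
  · rw [hA0]; simpa using E4_nonneg hT0
  by_cases hW0 : W = ∅
  · rw [hW0]; simpa using E4_nonneg hT0
  by_cases hm0 : S1 = ∅
  · rw [hm0]; simpa using E4_nonneg hT0
  by_cases hl0 : S2 = ∅
  · rw [hl0]; simpa using E4_nonneg hT0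
  obtain ⟨q0, hq0⟩ := Finset.nonempty_iff_ne_empty.2 hA0
  obtain ⟨w0, hw0⟩ := Finset.nonempty_iff_ne_empty.2 hW0
  obtain ⟨m0, hm0⟩ := Finset.nonempty_iff_ne_empty.2 hm0
  obtain ⟨l0, hl0⟩ := Finset.nonempty_iff_ne_empty.2 hl0
  have memA : ∀ q ∈ A, q ∈ PU (J1 T) ∧ (2 : ℝ) ^ a - 1 / 2 < q ∧ (q : ℝ) ≤ 2 * ((2 : ℝ) ^ a - 1 / 2) := by
    intro q hq
    rw [hA, Finset.mem_filter] at hq
    exact ⟨hq.1, log_cls (hM _ (J1_sub T) q hq.1).1.ne_zero hq.2⟩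
  have memW : ∀ w ∈ W, w ∈ Iw T ∧ (2 : ℝ) ^ b - 1 / 2 < w ∧ (w : ℝ) ≤ 2 * ((2 : ℝ) ^ b - 1 / 2) := by
    intro w hw
    rw [hW, Finset.mem_filter] at hw
    exact ⟨hw.1, log_cls (IP_prime hw.1).1.ne_zero hw.2⟩
  have mem1 : ∀ m ∈ S1, m ∈ Sm ∧ (2 : ℝ) ^ i - 1 / 2 < m ∧ (m : ℝ) ≤ 2 * ((2 : ℝ) ^ i - 1 / 2) := by
    intro m hm
    rw [hS1, Finset.mem_filter] at hm
    exact ⟨hm.1, log_cls (hSm m hm.1) hm.2⟩
  have mem2 : ∀ l ∈ S2, l ∈ Sl ∧ (2 : ℝ) ^ j - 1 / 2 < l ∧ (l : ℝ) ≤ 2 * ((2 : ℝ) ^ j - 1 / 2) := by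
    intro l hl
    rw [hS2, Finset.mem_filter] at hl
    exact ⟨hl.1, log_cls (hSl l hl.1).1.ne_zero hl.2⟩
  have hqw : ∀ q ∈ A, ∀ w ∈ W, Squarefree (q * w) ∧ (∀ p : ℕ, p.Prime → p ∣ q * w → T ^ (1 / 100 : ℝ) < p) ∧
      ((q * w : ℕ) : ℝ) ≤ T ^ (1 / 2 + 1 / 2000000 : ℝ) := by
    intro q hq w hw
    have := split_all hsp hT1 (hM (IF T) (List.Sublist.refl _)) q (memA q hq).1 w (memW w hw).1
    exact ⟨this.1, this.2.2.2.1, this.2.2.2.2.1⟩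
  have hcop : ∀ q ∈ A, ∀ w ∈ W, Nat.Coprime q w := fun q hq w hw => Nat.coprime_of_squarefree_mul (hqw q hq w hw).1
  have hcx : ∀ x ∈ S2, ∀ q ∈ A, ∀ w ∈ W, Nat.Coprime x (q * w) := by
    intro x hx q hq w hw
    by_contra hc
    obtain ⟨p, hp, hpx, hpq⟩ := Nat.Prime.not_coprime_iff_dvd.1 hc
    have h1 := (hSl x (mem2 x hx).1).2.2.2 p hp hpx
    have h2 := (hqw q hq w hw).2.1 p hp hpq
    have h3 : T ^ (1 / 2000 : ℝ) ≤ T ^ (1 / 100 : ℝ) := hmono (by norm_num)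
    linarith
  -- sizes
  set Q : ℝ := (2 : ℝ) ^ a - 1 / 2 with hQ
  set P : ℝ := (2 : ℝ) ^ b - 1 / 2 with hP
  set Mx : ℝ := (2 : ℝ) ^ i - 1 / 2 with hMx
  set X : ℝ := (2 : ℝ) ^ j - 1 / 2 with hX
  have hpos : ∀ n : ℕ, (1 : ℝ) / 2 ≤ (2 : ℝ) ^ n - 1 / 2 := by
    intro n
    have : (1 : ℝ) ≤ 2 ^ n := one_le_pow₀ (by norm_num)
    linarith
  have hQ0 : 0 < Q := by have := hpos a; linarith
  have hP0 : 0 < P := by have := hpos b; linarith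
  have hMx0 : 0 < Mx := by have := hpos i; linarith
  have hX0 : 0 < X := by have := hpos j; linarith
  have cq0 := (memA q0 hq0).2
  have cw0 := (memW w0 hw0).2
  have cm0 := (mem1 m0 hm0).2
  have cl0 := (mem2 l0 hl0).2
  have lq0 : T ^ (44 / 100 : ℝ) ≤ q0 := by
    have h1 := PU_low hT1 _ q0 (memA q0 hq0).1
    refine le_trans (hmono ?_) h1
    norm_num
  have lw0 := (IP_prime (memW w0 hw0).1).2
  have lqw0 : T ^ (1 / 2 : ℝ) ≤ q0 * w0 := by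
    have h1 : T ^ (44 / 100 : ℝ) * T ^ (6 / 100 + 1 / 1000000 / 4 : ℝ) ≤ q0 * w0 :=
      mul_le_mul lq0 lw0.1.le (by positivity) (by positivity)
    rw [← Real.rpow_add hT0] at h1
    exact (hmono (by norm_num)).trans h1
  have ll0 := hSl l0 (mem2 l0 hl0).1
  have c1 : 1 ≤ Q := by
    have h1 : (100 : ℝ) ≤ T ^ (44 / 100 : ℝ) := h100.trans (hmono (by norm_num))
    linarith
  have c2 : T ^ (3 / 50 : ℝ) / 2 ≤ P := by
    have h1 : T ^ (3 / 50 : ℝ) ≤ T ^ (6 / 100 + 1 / 1000000 / 4 : ℝ) := hmono (by norm_num)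
    linarith
  have c3 : P ≤ T ^ (3 / 50 + 1 / 1000000 : ℝ) := by
    have h1 : T ^ (6 / 100 + 1 / 1000000 / 4 + 1 / 100000000 : ℝ) ≤ T ^ (3 / 50 + 1 / 1000000 : ℝ) := hmono (by norm_num)
    linarith [lw0.2]
  have c4 : T ^ (1 / 2000 : ℝ) / 2 ≤ X := by
    have h1 : T ^ (1 / 2000 : ℝ) ≤ T ^ (1 / 400 : ℝ) := hmono (by norm_num)
    linarith [ll0.2.1]
  have c4' : T ^ (1 / 400 : ℝ) / 2 ≤ X := by linarith [ll0.2.1]
  have c5 : X ≤ T ^ (131 / 10000 : ℝ) := by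
    have h1 : T ^ (3 / 1000 : ℝ) ≤ T ^ (131 / 10000 : ℝ) := hmono (by norm_num)
    linarith [ll0.2.2.1]
  have c6 : T ^ (1 / 2 : ℝ) / 8 ≤ ((1 : ℕ) : ℝ) * Q * P := by
    push_cast
    have h1 : (q0 : ℝ) * w0 ≤ (2 * Q) * (2 * P) := mul_le_mul cq0.2 cw0.2 (by positivity) (by positivity)
    have h2 : 0 < T ^ (1 / 2 : ℝ) := by positivity
    nlinarith
  have c7 : ((1 : ℕ) : ℝ) * Q * P ≤ T ^ (1 / 2 + 1 / 1000000 : ℝ) := by
    push_cast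
    have h1 : Q * P ≤ q0 * w0 := mul_le_mul cq0.1.le cw0.1.le hP0.le (by positivity)
    have h2 := (hqw q0 hq0 w0 hw0).2.2
    push_cast at h2
    have h3 : T ^ (1 / 2 + 1 / 2000000 : ℝ) ≤ T ^ (1 / 2 + 1 / 1000000 : ℝ) := hmono (by norm_num)
    linarith
  have c8 : Mx * X ≤ T ^ (1 + 1 / 1000000 : ℝ) := by
    have h1 : Mx * X ≤ m0 * l0 := mul_le_mul cm0.1.le cl0.1.le hX0.le (by positivity)
    exact h1.trans (hML m0 (mem1 m0 hm0).1 l0 (mem2 l0 hl0).1)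
  have p100 : ∀ {p : ℕ}, T ^ (1 / 100 : ℝ) < p → 100 ≤ p := by
    intro p hp
    have h1 : (100 : ℝ) ≤ p := by linarith
    exact_mod_cast h1
  have hSm' : S1 ⊆ Finset.Ioc ⌊Mx⌋₊ ⌊2 * Mx⌋₊ := by
    intro m hm
    rw [hS1, Finset.mem_filter] at hm
    exact cls_mem (hSm m hm.1) hm.2
  have hbd := hS (-k) 1 Q P X Mx A W S2 (fun m => if m ∈ S1 then ((α m : ℝ) : ℂ) else 0) (cut A hf) (cut W hf) (fun l => ((β l : ℝ) : ℂ))
    (neg_ne_zero.2 hk) (by push_cast; rwa [abs_neg]) le_rfl (by simp) c1 c2 c3 c4 c5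
    (by push_cast; exact Real.one_le_rpow hT1 (by norm_num)) c6 c7 hbig c8
    (fun q hq => ⟨(hM _ (J1_sub T) q (memA q hq).1).1, (memA q hq).2.1, (memA q hq).2.2,
      (hM _ (J1_sub T) q (memA q hq).1).2.1.le.trans (hM _ (J1_sub T) q (memA q hq).1).2.2.1,
      fun r hr hd => ((hM _ (J1_sub T) q (memA q hq).1).2.2.2.1 r hr hd).le⟩)
    (fun w hw => ⟨(IP_prime (memW w hw).1).1, (memW w hw).2⟩)
    (fun w hw q hq => (hcop q hq w hw).symm)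
    (fun x hx => ⟨(mem2 x hx).2.1, (mem2 x hx).2.2, Nat.coprime_one_right x⟩)
    (fun x hx q hq w hw => Or.inl (hcx x hx q hq w hw))
    (fun n => by
      split_ifs
      · simpa using hα n
      · simp)
    (cut_le fun q hq => hf_le (hM _ (J1_sub T) q (memA q hq).1).1 ((hM _ (J1_sub T) q (memA q hq).1).2.1.le.trans (hM _ (J1_sub T) q (memA q hq).1).2.2.1)
      fun p hp hd => p100 ((hM _ (J1_sub T) q (memA q hq).1).2.2.2.1 p hp hd))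
    (cut_le fun w hw => hf_le (IP_prime (memW w hw).1).1.squarefree
      (by rw [(IP_prime (memW w hw).1).1.primeFactors, Finset.card_singleton]; norm_num)
      fun p hp hd => by
        have h1 : p = w := (Nat.prime_dvd_prime_iff_eq hp (IP_prime (memW w hw).1).1).1 hd
        subst h1
        refine p100 (lt_of_le_of_lt (hmono (by norm_num)) (IP_prime (memW p hw).1).2.1))
    (fun n => by simpa using hβ n) 0 0
  have hEq := boxS (k := k) (α := α) (β := β) (Q := Q) (P := P) (X := X) hSm' hcop hcx 0 0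
  rw [S_congr] at hEq
  have hnorm : |∑ q ∈ A, ∑ w ∈ W, ∑ m ∈ S1, ∑ l ∈ S2, α m * β l * gt ((m : ℤ) * l + k) (q * w)| =
      4 * ‖(⟨-k, 1, Q, P, X, Mx, 0, 0, 7, A, W, S2, cut A hf, cut W hf, fun l => ((β l : ℝ) : ℂ)⟩ : TD).S
        (fun m => if m ∈ S1 then ((α m : ℝ) : ℂ) else 0)‖ := by
    rw [← Real.norm_eq_abs, ← Complex.norm_real, hEq, norm_mul]
    norm_num
  rw [hnorm]
  unfold E4
  refine mul_le_mul_of_nonneg_left (hbd.trans ?_) (by norm_num)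
  refine add_le_add ?_ le_rfl
  have h1 : X ^ (-(1 / 4) : ℝ) ≤ (T ^ (1 / 400 : ℝ) / 2) ^ (-(1 / 4) : ℝ) :=
    Real.rpow_le_rpow_of_nonpos (by positivity) c4' (by norm_num)
  have h2 : (T ^ (1 / 400 : ℝ) / 2) ^ (-(1 / 4) : ℝ) ≤ 2 * T ^ (-(1 / 1600) : ℝ) := by
    rw [Real.div_rpow (by positivity) (by norm_num), ← Real.rpow_mul hT0.le, div_eq_mul_inv, ← Real.rpow_neg (by norm_num), mul_comm]
    have h3 : (2 : ℝ) ^ (- -(1 / 4) : ℝ) ≤ 2 := by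
      calc (2 : ℝ) ^ (- -(1 / 4) : ℝ) ≤ (2 : ℝ) ^ (1 : ℝ) := Real.rpow_le_rpow_of_exponent_le (by norm_num) (by norm_num)
        _ = 2 := Real.rpow_one 2
    have h4 : T ^ (1 / 400 * -(1 / 4) : ℝ) = T ^ (-(1 / 1600) : ℝ) := by norm_num
    rw [h4]
    exact mul_le_mul_of_nonneg_right h3 (by positivity)
  calc T ^ (1 + 6 / 1000000 : ℝ) * X ^ (-(1 / 4) : ℝ) ≤ T ^ (1 + 6 / 1000000 : ℝ) * (2 * T ^ (-(1 / 1600) : ℝ)) :=
        mul_le_mul_of_nonneg_left (h1.trans h2) (by positivity)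
    _ = 2 * (T ^ (1 + 6 / 1000000 : ℝ) * T ^ (-(1 / 1600) : ℝ)) := by ring
    _ = 2 * T ^ (1 - 619 / 1000000 : ℝ) := by
        rw [← Real.rpow_add hT0]
        norm_num

private theorem partB {T : ℝ} (hT : 1 < T) (h100 : 100 ≤ T ^ (1 / 100 : ℝ)) (hS : BodyS T) (hM : BodyM T) (hsp : Stmt_PU_split)
    (hU : ∀ n : ℤ, n ≠ 0 → |(n : ℝ)| ≤ T ^ 2 → |UU (IF T) n| ≤ T ^ (1 / 100 : ℝ))
    (hN : (((Nat.log 2 ⌊T ^ 2⌋₊ + 1 : ℕ) : ℝ)) ^ 4 * 16 ≤ T ^ (19 / 1000000 : ℝ))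
    {k : ℤ} (hk : k ≠ 0) (hkT : |(k : ℝ)| ≤ T ^ (1 / 1000000 : ℝ)) {M L M₀ L₀ : ℕ} {α β : ℕ → ℝ}
    (hML : (M : ℝ) * L ≤ T ^ (1 + 1 / 1000000 : ℝ)) (hα : ∀ m, |α m| ≤ 1) (hβ : ∀ l, |β l| ≤ 1)
    (hβ' : ∀ l, β l ≠ 0 → Squarefree l ∧ T ^ (1 / 400 : ℝ) < l ∧ (l : ℝ) ≤ T ^ (3 / 1000 : ℝ) ∧ ∀ p : ℕ, p.Prime → p ∣ l → (p : ℝ) ≤ T ^ (1 / 2000 : ℝ)) :
    |∑ m ∈ Finset.Ioc M₀ M, ∑ l ∈ Finset.Ioc L₀ L, α m * β l * UU (IF T) (m * l + k)| ≤ T ^ (1 - 6 / 10000 : ℝ) := by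
  classical
  have hT0 : 0 < T := by linarith
  have hT1 : 1 ≤ T := hT.le
  have hmono : ∀ {x y : ℝ}, x ≤ y → T ^ x ≤ T ^ y := fun h => Real.rpow_le_rpow_of_exponent_le hT1 h
  set Sm := Finset.Ioc M₀ M with hSm
  set Sl := (Finset.Ioc L₀ L).filter (fun l => β l ≠ 0) with hSl
  have hred : ∑ m ∈ Sm, ∑ l ∈ Finset.Ioc L₀ L, α m * β l * UU (IF T) (m * l + k) = ∑ m ∈ Sm, ∑ l ∈ Sl, α m * β l * UU (IF T) (m * l + k) := by
    refine Finset.sum_congr rfl fun m _ => ?_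
    rw [hSl, Finset.sum_filter_of_ne]
    intro l _ h hb
    apply h
    rw [hb]; ring
  rw [hred]
  by_cases hl0 : Sl = ∅
  · rw [hl0]
    simp only [Finset.sum_empty, Finset.sum_const_zero, abs_zero]
    positivity
  obtain ⟨l0, hl0⟩ := Finset.nonempty_iff_ne_empty.2 hl0
  rw [hSl, Finset.mem_filter, Finset.mem_Ioc] at hl0
  have hL1 : (1 : ℝ) ≤ L := by
    have : 1 ≤ L := by omega
    exact_mod_cast this
  have hM1 : (M : ℝ) ≤ T ^ (1 + 1 / 1000000 : ℝ) := by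
    have h0 : (0 : ℝ) ≤ M := Nat.cast_nonneg _
    nlinarith
  have hSm' : ∀ m ∈ Sm, m ≠ 0 ∧ (m : ℝ) ≤ M := by
    intro m hm
    rw [hSm, Finset.mem_Ioc] at hm
    exact ⟨by omega, by exact_mod_cast hm.2⟩
  have hSl' : ∀ l ∈ Sl, (Squarefree l ∧ T ^ (1 / 400 : ℝ) < l ∧ (l : ℝ) ≤ T ^ (3 / 1000 : ℝ) ∧ ∀ p : ℕ, p.Prime → p ∣ l → (p : ℝ) ≤ T ^ (1 / 2000 : ℝ)) ∧
      (l : ℝ) ≤ L := by
    intro l hl
    rw [hSl, Finset.mem_filter, Finset.mem_Ioc] at hl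
    exact ⟨hβ' l hl.2, by exact_mod_cast hl.1.2⟩
  have hMLb : ∀ m ∈ Sm, ∀ l ∈ Sl, (m : ℝ) * l ≤ T ^ (1 + 1 / 1000000 : ℝ) := fun m hm l hl =>
    (mul_le_mul (hSm' m hm).2 (hSl' l hl).2 (Nat.cast_nonneg _) (Nat.cast_nonneg _)).trans hML
  set N : ℕ := Nat.log 2 ⌊T ^ 2⌋₊ + 1 with hNdef
  have hNb : ∀ {n : ℕ}, (n : ℝ) ≤ T ^ (1 + 1 / 1000000 : ℝ) → Nat.log 2 n < N := by
    intro n hn
    have h1 : (n : ℝ) ≤ T ^ 2 := by
      rw [← Real.rpow_natCast]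
      exact hn.trans (hmono (by norm_num))
    have h2 : n ≤ ⌊T ^ 2⌋₊ := Nat.le_floor h1
    rw [hNdef]
    exact Nat.lt_succ_of_le (Nat.log_mono_right h2)
  have hN1 : (1 : ℝ) ≤ N := by rw [hNdef]; push_cast; linarith [(Nat.cast_nonneg _ : (0 : ℝ) ≤ (Nat.log 2 ⌊T ^ 2⌋₊ : ℕ))]
  -- one box in (m, l)
  have hbox : ∀ i j : ℕ, |∑ m ∈ Sm.filter (fun n => Nat.log 2 n = i), ∑ l ∈ Sl.filter (fun n => Nat.log 2 n = j), α m * β l * UU (IF T) (m * l + k)| ≤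
      4 * T ^ (91 / 100 : ℝ) + (N : ℝ) ^ 2 * E4 T := by
    intro i j
    have hE : 0 ≤ (N : ℝ) ^ 2 * E4 T := mul_nonneg (by positivity) (E4_nonneg hT0)
    by_cases hbig : T ^ (9 / 10 : ℝ) ≤ ((2 : ℝ) ^ i - 1 / 2) * ((2 : ℝ) ^ j - 1 / 2)
    · have h1 : ∑ m ∈ Sm.filter (fun n => Nat.log 2 n = i), ∑ l ∈ Sl.filter (fun n => Nat.log 2 n = j), α m * β l * UU (IF T) (m * l + k) =
          ∑ q ∈ PU (J1 T), ∑ w ∈ Iw T, ∑ m ∈ Sm.filter (fun n => Nat.log 2 n = i), ∑ l ∈ Sl.filter (fun n => Nat.log 2 n = j),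
            α m * β l * gt ((m : ℤ) * l + k) (q * w) := by
        have h2 : ∀ n : ℤ, UU (IF T) n = ∑ q ∈ PU (J1 T), ∑ w ∈ Iw T, gt n (q * w) := by
          intro n
          have := hsp (IF_perm T) (IF_prime T) (IF_disj hT1) (gt n)
          rw [PU_single] at this
          rw [← this]
          rfl
        calc _ = ∑ m ∈ Sm.filter (fun n => Nat.log 2 n = i), ∑ l ∈ Sl.filter (fun n => Nat.log 2 n = j), ∑ q ∈ PU (J1 T), ∑ w ∈ Iw T,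
              α m * β l * gt ((m : ℤ) * l + k) (q * w) := by
              refine Finset.sum_congr rfl fun m _ => Finset.sum_congr rfl fun l _ => ?_
              rw [h2, Finset.mul_sum]
              exact Finset.sum_congr rfl fun q _ => by rw [Finset.mul_sum]
          _ = ∑ m ∈ Sm.filter (fun n => Nat.log 2 n = i), ∑ q ∈ PU (J1 T), ∑ w ∈ Iw T, ∑ l ∈ Sl.filter (fun n => Nat.log 2 n = j),
              α m * β l * gt ((m : ℤ) * l + k) (q * w) := by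
              refine Finset.sum_congr rfl fun m _ => ?_
              rw [Finset.sum_comm]
              exact Finset.sum_congr rfl fun q _ => Finset.sum_comm
          _ = _ := by
              rw [Finset.sum_comm]
              exact Finset.sum_congr rfl fun q _ => Finset.sum_comm
      rw [h1]
      have h3 := cls2 (S := PU (J1 T)) (S' := Iw T) (N := N) (E := E4 T)
        (f := fun q w => ∑ m ∈ Sm.filter (fun n => Nat.log 2 n = i), ∑ l ∈ Sl.filter (fun n => Nat.log 2 n = j), α m * β l * gt ((m : ℤ) * l + k) (q * w))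
        (fun q hq => hNb (((hM _ (J1_sub T) q hq).2.2.2.2.1).trans (hmono (by norm_num))))
        (fun w hw => hNb (((IP_prime hw).2.2).trans (hmono (by norm_num))))
        (fun a b => boxB hT h100 hS hM hsp hk hkT hα hβ (fun m hm => (hSm' m hm).1) (fun l hl => (hSl' l hl).1) hMLb hbig)
      have h4 : (0 : ℝ) ≤ 4 * T ^ (91 / 100 : ℝ) := by positivity
      linarith
    · push Not at hbig
      -- trivial bound
      have hpos : ∀ n : ℕ, (1 : ℝ) / 2 ≤ (2 : ℝ) ^ n - 1 / 2 := by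
        intro n
        have : (1 : ℝ) ≤ 2 ^ n := one_le_pow₀ (by norm_num)
        linarith
      have hc : ∀ {S : Finset ℕ}, (∀ n ∈ S, n ≠ 0) → ∀ i : ℕ, ((S.filter (fun n => Nat.log 2 n = i)).card : ℝ) ≤ 2 * ((2 : ℝ) ^ i - 1 / 2) := by
        intro S hS i
        have h1 : S.filter (fun n => Nat.log 2 n = i) ⊆ Finset.Ioc ⌊(2 : ℝ) ^ i - 1 / 2⌋₊ ⌊2 * ((2 : ℝ) ^ i - 1 / 2)⌋₊ := by
          intro m hm
          rw [Finset.mem_filter] at hm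
          exact cls_mem (hS m hm.1) hm.2
        have h2 := Finset.card_le_card h1
        rw [Nat.card_Ioc] at h2
        have h3 : (S.filter (fun n => Nat.log 2 n = i)).card ≤ ⌊2 * ((2 : ℝ) ^ i - 1 / 2)⌋₊ := h2.trans (Nat.sub_le _ _)
        exact (Nat.cast_le.2 h3).trans (Nat.floor_le (by have := hpos i; linarith))
      have hU' : ∀ m ∈ Sm, ∀ l ∈ Sl, |α m * β l * UU (IF T) (m * l + k)| ≤ T ^ (1 / 100 : ℝ) := by
        intro m hm l hl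
        have h1 : 1 ≤ (m : ℝ) := by
          have := Nat.pos_of_ne_zero (hSm' m hm).1
          exact_mod_cast this
        have h2 := (hSl' l hl).1.2.1
        have h3 : T ^ (1 / 1000000 : ℝ) ≤ T ^ (1 / 400 : ℝ) := hmono (by norm_num)
        have h4 : |(k : ℝ)| < (m : ℝ) * l := by nlinarith
        have h5 : ((m : ℤ) * l + k : ℤ) ≠ 0 := by
          intro h
          have h6 : ((m : ℝ) * l + k) = 0 := by exact_mod_cast h
          have h7 : (k : ℝ) = -((m : ℝ) * l) := by linarith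
          rw [h7, abs_neg, abs_of_nonneg (by positivity)] at h4
          exact lt_irrefl _ h4
        have h6 : |((((m : ℤ) * l + k : ℤ)) : ℝ)| ≤ T ^ 2 := by
          push_cast
          have h7 := hMLb m hm l hl
          have h8 : T ^ (1 + 1 / 1000000 : ℝ) ≤ T ^ (3 / 2 : ℝ) := hmono (by norm_num)
          have h9 : 2 * T ^ (3 / 2 : ℝ) ≤ T ^ 2 := by
            have : T ^ 2 = T ^ (1 / 2 : ℝ) * T ^ (3 / 2 : ℝ) := by
              rw [← Real.rpow_add hT0, ← Real.rpow_natCast]; norm_num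
            rw [this]
            have h10 : (100 : ℝ) ≤ T ^ (1 / 2 : ℝ) := h100.trans (hmono (by norm_num))
            have h11 : 0 < T ^ (3 / 2 : ℝ) := by positivity
            nlinarith
          calc |(m : ℝ) * l + k| ≤ |(m : ℝ) * l| + |(k : ℝ)| := abs_add_le _ _
            _ ≤ T ^ 2 := by
              rw [abs_of_nonneg (by positivity)]
              linarith
        have h7 := hU _ h5 h6
        rw [abs_mul, abs_mul]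
        have h8 : |α m| * |β l| ≤ 1 := mul_le_one₀ (hα m) (abs_nonneg _) (hβ l)
        calc |α m| * |β l| * |UU (IF T) ((m : ℤ) * l + k)| ≤ 1 * T ^ (1 / 100 : ℝ) := mul_le_mul h8 h7 (abs_nonneg _) zero_le_one
          _ = _ := one_mul _
      have h1 : |∑ m ∈ Sm.filter (fun n => Nat.log 2 n = i), ∑ l ∈ Sl.filter (fun n => Nat.log 2 n = j), α m * β l * UU (IF T) (m * l + k)| ≤
          ∑ m ∈ Sm.filter (fun n => Nat.log 2 n = i), ∑ l ∈ Sl.filter (fun n => Nat.log 2 n = j), T ^ (1 / 100 : ℝ) := by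
        refine (Finset.abs_sum_le_sum_abs _ _).trans (Finset.sum_le_sum fun m hm => ?_)
        refine (Finset.abs_sum_le_sum_abs _ _).trans (Finset.sum_le_sum fun l hl => ?_)
        exact hU' m (Finset.mem_filter.1 hm).1 l (Finset.mem_filter.1 hl).1
      rw [Finset.sum_const, Finset.sum_const, nsmul_eq_mul, nsmul_eq_mul] at h1
      have h2 := hc (fun m hm => (hSm' m hm).1) i
      have h3 := hc (fun l hl => (hSl' l hl).1.1.ne_zero) j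
      have h4 : ((Sm.filter (fun n => Nat.log 2 n = i)).card : ℝ) * (((Sl.filter (fun n => Nat.log 2 n = j)).card : ℝ) * T ^ (1 / 100 : ℝ)) ≤
          4 * T ^ (91 / 100 : ℝ) := by
        have h5 : ((Sm.filter (fun n => Nat.log 2 n = i)).card : ℝ) * ((Sl.filter (fun n => Nat.log 2 n = j)).card : ℝ) ≤
            (2 * ((2 : ℝ) ^ i - 1 / 2)) * (2 * ((2 : ℝ) ^ j - 1 / 2)) := mul_le_mul h2 h3 (by positivity) (by have := hpos i; linarith)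
        have h6 : ((Sm.filter (fun n => Nat.log 2 n = i)).card : ℝ) * ((Sl.filter (fun n => Nat.log 2 n = j)).card : ℝ) ≤ 4 * T ^ (9 / 10 : ℝ) := by
          nlinarith
        calc _ = (((Sm.filter (fun n => Nat.log 2 n = i)).card : ℝ) * ((Sl.filter (fun n => Nat.log 2 n = j)).card : ℝ)) * T ^ (1 / 100 : ℝ) := by ring
          _ ≤ 4 * T ^ (9 / 10 : ℝ) * T ^ (1 / 100 : ℝ) := mul_le_mul_of_nonneg_right h6 (by positivity)
          _ = 4 * (T ^ (9 / 10 : ℝ) * T ^ (1 / 100 : ℝ)) := by ring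
          _ = 4 * T ^ (91 / 100 : ℝ) := by
            rw [← Real.rpow_add hT0]; norm_num
      linarith
  have hfin := cls2 (S := Sm) (S' := Sl) (N := N) (f := fun m l => α m * β l * UU (IF T) (m * l + k))
    (fun m hm => hNb ((hSm' m hm).2.trans hM1))
    (fun l hl => hNb ((hSl' l hl).1.2.2.1.trans (hmono (by norm_num)))) hbox
  refine hfin.trans ?_
  -- numbers
  have g1 : T ^ (91 / 100 : ℝ) ≤ T ^ (1 - 619 / 1000000 : ℝ) := hmono (by norm_num)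
  have g2 : T ^ (1 - 3 / 1000 : ℝ) ≤ T ^ (1 - 619 / 1000000 : ℝ) := hmono (by norm_num)
  have g3 : E4 T ≤ 12 * T ^ (1 - 619 / 1000000 : ℝ) := by unfold E4; linarith
  have g4 : (1 : ℝ) ≤ (N : ℝ) ^ 2 := one_le_pow₀ hN1
  have g5 : 0 < T ^ (1 - 619 / 1000000 : ℝ) := by positivity
  calc (N : ℝ) ^ 2 * (4 * T ^ (91 / 100 : ℝ) + (N : ℝ) ^ 2 * E4 T)
      ≤ (N : ℝ) ^ 2 * ((N : ℝ) ^ 2 * (4 * T ^ (1 - 619 / 1000000 : ℝ)) + (N : ℝ) ^ 2 * (12 * T ^ (1 - 619 / 1000000 : ℝ))) := by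
        refine mul_le_mul_of_nonneg_left (add_le_add ?_ (mul_le_mul_of_nonneg_left g3 (by positivity))) (by positivity)
        nlinarith
    _ = ((N : ℝ) ^ 4 * 16) * T ^ (1 - 619 / 1000000 : ℝ) := by ring
    _ ≤ T ^ (19 / 1000000 : ℝ) * T ^ (1 - 619 / 1000000 : ℝ) := mul_le_mul_of_nonneg_right hN g5.le
    _ = T ^ (1 - 6 / 10000 : ℝ) := by
        rw [← Real.rpow_add hT0]; norm_num

/-! ## logarithms -/

private theorem log_small (a : ℝ) {c : ℝ} (hc : 0 < c) (C : ℝ) : ∀ᶠ T : ℝ in atTop, C * (1 + Real.log T) ^ a ≤ T ^ c := by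
  have h1 : (fun T : ℝ => Real.log T ^ (|a| + 1)) =o[atTop] fun T => T ^ c := isLittleO_log_rpow_rpow_atTop _ hc
  have h2 := h1.bound (c := 1 / ((|C| + 1) * 2 ^ (|a| + 1))) (by positivity)
  filter_upwards [h2, eventually_ge_atTop (Real.exp 1)] with T hT he
  have hT0 : 0 < T := (Real.exp_pos 1).trans_le he
  have hl : 1 ≤ Real.log T := by
    rw [← Real.log_exp 1]; exact Real.log_le_log (Real.exp_pos 1) he
  rw [Real.norm_of_nonneg (by positivity), Real.norm_of_nonneg (by positivity)] at hT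
  have h3 : (1 + Real.log T) ^ a ≤ (1 + Real.log T) ^ (|a| + 1) :=
    Real.rpow_le_rpow_of_exponent_le (by linarith) (by linarith [le_abs_self a])
  have h4 : (1 + Real.log T) ^ (|a| + 1) ≤ (2 * Real.log T) ^ (|a| + 1) :=
    Real.rpow_le_rpow (by linarith) (by linarith) (by positivity)
  rw [Real.mul_rpow (by norm_num) (by linarith)] at h4
  have h5 : 0 ≤ (1 + Real.log T) ^ a := by positivity
  calc C * (1 + Real.log T) ^ a ≤ (|C| + 1) * (2 ^ (|a| + 1) * Real.log T ^ (|a| + 1)) :=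
        mul_le_mul (by linarith [le_abs_self C]) (h3.trans h4) h5 (by positivity)
    _ = ((|C| + 1) * 2 ^ (|a| + 1)) * Real.log T ^ (|a| + 1) := by ring
    _ ≤ ((|C| + 1) * 2 ^ (|a| + 1)) * (1 / ((|C| + 1) * 2 ^ (|a| + 1)) * T ^ c) :=
        mul_le_mul_of_nonneg_left hT (by positivity)
    _ = T ^ c := by field_simp

private theorem log_small' (n : ℕ) {c : ℝ} (hc : 0 < c) (C : ℝ) : ∀ᶠ T : ℝ in atTop, C * (1 + Real.log T) ^ n ≤ T ^ c := by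
  filter_upwards [log_small n hc C] with T hT
  rwa [Real.rpow_natCast] at hT

private theorem N_bound : ∀ᶠ T : ℝ in atTop, (((Nat.log 2 ⌊T ^ 2⌋₊ + 1 : ℕ) : ℝ)) ^ 4 * 16 ≤ T ^ (19 / 1000000 : ℝ) := by
  filter_upwards [log_small' 4 (c := 19 / 1000000) (by norm_num) (4 ^ 4 * 16), eventually_gt_atTop 1] with T hT h1
  refine le_trans ?_ hT
  have hT0 : 0 < T := by linarith
  have hl : 0 < Real.log T := Real.log_pos h1
  have h2 : ((Nat.log 2 ⌊T ^ 2⌋₊ : ℕ) : ℝ) * Real.log 2 ≤ 2 * Real.log T := by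
    have h3 : 1 ≤ ⌊T ^ 2⌋₊ := (Nat.one_le_floor_iff _).2 (one_le_pow₀ h1.le)
    have h4 : 2 ^ Nat.log 2 ⌊T ^ 2⌋₊ ≤ ⌊T ^ 2⌋₊ := Nat.pow_log_le_self 2 (by omega)
    have h5 : (2 : ℝ) ^ Nat.log 2 ⌊T ^ 2⌋₊ ≤ T ^ 2 := by
      have h6 : ((2 ^ Nat.log 2 ⌊T ^ 2⌋₊ : ℕ) : ℝ) ≤ ⌊T ^ 2⌋₊ := Nat.cast_le.2 h4
      push_cast at h6
      exact h6.trans (Nat.floor_le (by positivity))
    have h7 := Real.log_le_log (by positivity) h5
    rw [Real.log_pow, Real.log_pow] at h7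
    exact_mod_cast h7
  have h8 : (0.6 : ℝ) < Real.log 2 := by have := Real.log_two_gt_d9; linarith
  have h9 : ((Nat.log 2 ⌊T ^ 2⌋₊ : ℕ) : ℝ) ≤ 4 * Real.log T := by
    have h10 : (0 : ℝ) ≤ ((Nat.log 2 ⌊T ^ 2⌋₊ : ℕ) : ℝ) := Nat.cast_nonneg _
    nlinarith
  have h11 : (((Nat.log 2 ⌊T ^ 2⌋₊ + 1 : ℕ) : ℝ)) ≤ 4 * (1 + Real.log T) := by push_cast; linarith
  calc (((Nat.log 2 ⌊T ^ 2⌋₊ + 1 : ℕ) : ℝ)) ^ 4 * 16 ≤ (4 * (1 + Real.log T)) ^ 4 * 16 := by gcongr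
    _ = 4 ^ 4 * 16 * (1 + Real.log T) ^ 4 := by ring

/-- **US** from PU_split, PU_mem, UU_bd and TIIS -/
theorem US_of (h1 : Stmt_PU_split) (h2 : Stmt_PU_mem) (h3 : Stmt_UU_bd) (h4 : Stmt_TIIS) : Stmt_US := by
  obtain ⟨T0, _, hT0⟩ := h4
  have h100 : ∀ᶠ T : ℝ in atTop, (100 : ℝ) ≤ T ^ (1 / 100 : ℝ) :=
    (tendsto_rpow_atTop (by norm_num)).eventually_ge_atTop 100
  filter_upwards [h2, h3 (ε := 1 / 100) (by norm_num), eventually_ge_atTop T0, eventually_gt_atTop 1, h100, N_bound,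
    log_small' 3 (c := 4 / 10000) (by norm_num) 320] with T hM hU hS hT h100 hN hlog
  intro J hJ hJ0 k M L M₀ L₀ α β hk hkT hM' hL hML hα hβ hβ'
  by_cases hJF : J = IF T
  · subst hJF
    exact partB hT h100 (hT0 T hS) hM h1 (hU _ (List.Sublist.refl _)) hN hk hkT hML hα hβ hβ'
  · refine partA hT h100 hlog (fun u hu => ?_) hk hkT hM' hL hML hα hβ (fun l hl => ⟨(hβ' l hl).2.1, (hβ' l hl).2.2.1⟩)
    obtain ⟨g1, g2, g3, g4, g5, g6⟩ := hM J hJ u hu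
    exact ⟨g1, g2.le.trans g3, g4, g6 hJF⟩

end Pool.Agent.Helper19.AP
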