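import Pool.Agent.Helper19.AP.US
import Pool.Agent.Helper56.AP.PUF
import Pool.Agent.Helper56.AP.Stmts
import Pool.Agent.Helper57.BG.Asm

/-!
# Project A' (MP_8958e8): block US, final form
-/

set_option autoImplicit false

namespace Pool.Agent.AP

theorem US : Stmt_US := by
  have h := Pool.Agent.Helper19.AP.US_of (fun hp hpr hd g => PU_split hp hpr hd g) PU_mem (fun hε => UU_bd hε) Pool.Agent.Helper57.BG.tIIS
  exact h

end Pool.Agent.AP
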